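import Pool.Agent.H14.TradeU

set_option autoImplicit false

namespace Pool.Agent.Results.MP_96963f_co.Order

open Pool.Agent.H14.Trade

/-- The least m such that every m-asummable switching function on n variables is weighted. -/
noncomputable def M (n : ℕ) : ℕ :=
  sInf {m : ℕ | ∀ f : (Fin n → Bool) → Bool, Monotone f →
    (∀ k, 1 ≤ k → k ≤ m → ¬ SummableAt f k) → Weighted f}

theorem result (n : ℕ) (hn : 120 ≤ n) :
    (n / 120) ^ (n / 120 - 1) ≤ M n ∧ M n ≤ (n + 2) ^ (2 * n + 4) := by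
  have hU : (n + 2) ^ (2 * n + 4) ∈ {m : ℕ | ∀ f : (Fin n → Bool) → Bool, Monotone f →
      (∀ k, 1 ≤ k → k ≤ m → ¬ SummableAt f k) → Weighted f} := by
    intro f _ h
    by_contra hf
    obtain ⟨j, j1, j2, j3⟩ := upper f hf
    exact h j j1 j2 j3
  refine ⟨?_, Nat.sInf_le hU⟩
  have hM := Nat.sInf_mem ⟨_, hU⟩
  obtain ⟨f, f1, f2, f3⟩ := main n hn
  by_contra hc
  apply f2
  apply hM f f1
  intro k k1 k2 hs
  exact hc ((f3 k k1 hs).trans k2)

end Pool.Agent.Results.MP_96963f_co.Order
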